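import Pool.Agent.W79.BP.Defs

/-!
Project BP (helper79), part EQ: independent equations.
-/

set_option autoImplicit false

namespace Pool.Agent.W249.BP.EQ

open scoped Classical
open Pool.Agent.W79.BP

lemma SO_refl {n : ℕ} (σ : Equiv.Perm (Fin n)) (p : Fin n × Fin n) : SO σ p p :=
  ⟨0, Or.inl ⟨by simp, by simp⟩⟩

lemma SO_symm {n : ℕ} {σ : Equiv.Perm (Fin n)} {p q : Fin n × Fin n} (h : SO σ p q) :
    SO σ q p := by
  obtain ⟨k, h | h⟩ := h
  · refine ⟨-k, Or.inl ⟨?_, ?_⟩⟩
    · rw [← h.1, ← Equiv.Perm.mul_apply, ← zpow_add]; simp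
    · rw [← h.2, ← Equiv.Perm.mul_apply, ← zpow_add]; simp
  · refine ⟨-k, Or.inr ⟨?_, ?_⟩⟩
    · rw [← h.2, ← Equiv.Perm.mul_apply, ← zpow_add]; simp
    · rw [← h.1, ← Equiv.Perm.mul_apply, ← zpow_add]; simp

lemma SO_trans {n : ℕ} {σ : Equiv.Perm (Fin n)} {p q r : Fin n × Fin n} (h : SO σ p q)
    (h' : SO σ q r) : SO σ p r := by
  obtain ⟨k, h⟩ := h
  obtain ⟨l, h'⟩ := h'
  refine ⟨l + k, ?_⟩
  rw [zpow_add, Equiv.Perm.mul_apply, Equiv.Perm.mul_apply]
  rcases h with ⟨h1, h2⟩ | ⟨h1, h2⟩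
  · rw [h1, h2]
    exact h'
  · rw [h1, h2]
    rcases h' with ⟨h3, h4⟩ | ⟨h3, h4⟩
    · exact Or.inr ⟨h4, h3⟩
    · exact Or.inl ⟨h4, h3⟩

/-- the class of a pair -/
noncomputable def cls {n : ℕ} (σ : Equiv.Perm (Fin n)) (x : Fin n × Fin n) :
    Finset (Fin n × Fin n) := Finset.univ.filter (fun y => SO σ x y)

lemma cls_eq {n : ℕ} {σ : Equiv.Perm (Fin n)} {x y : Fin n × Fin n} (h : SO σ x y) :
    cls σ x = cls σ y := by
  ext z
  simp only [cls, Finset.mem_filter, Finset.mem_univ, true_and]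
  exact ⟨fun h' => SO_trans (SO_symm h) h', fun h' => SO_trans h h'⟩

lemma cls_ne {n : ℕ} {σ : Equiv.Perm (Fin n)} {x y : Fin n × Fin n} (h : ¬ SO σ x y) :
    cls σ x ≠ cls σ y := by
  intro h2
  apply h
  have h3 : y ∈ cls σ y := by
    simp only [cls, Finset.mem_filter, Finset.mem_univ, true_and]
    exact SO_refl σ y
  rw [← h2] at h3
  simpa only [cls, Finset.mem_filter, Finset.mem_univ, true_and] using h3

/-- a quarter of the sets contain `a` and do not contain `b` -/
lemma quarter {α : Type} [Fintype α] {a b : α} (hab : a ≠ b) :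
    4 * ((Finset.univ : Finset (Finset α)).filter (fun W => a ∈ W ∧ b ∉ W)).card =
      2 ^ Fintype.card α := by
  have h1 : (Finset.univ : Finset (Finset α)).filter (fun W => a ∈ W ∧ b ∉ W) =
      Finset.Icc {a} (Finset.univ.erase b) := by
    ext W
    simp only [Finset.mem_filter, Finset.mem_univ, true_and, Finset.mem_Icc,
      Finset.singleton_subset_iff]
    refine and_congr_right fun _ => ?_
    constructor
    · intro hb x hx
      exact Finset.mem_erase.mpr ⟨fun h => hb (h ▸ hx), Finset.mem_univ x⟩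
    · intro h hb
      exact (Finset.mem_erase.mp (h hb)).1 rfl
  have h2 : ({a} : Finset α) ⊆ Finset.univ.erase b := by
    rw [Finset.singleton_subset_iff]
    exact Finset.mem_erase.mpr ⟨hab, Finset.mem_univ a⟩
  have h3 : 2 ≤ Fintype.card α := by
    have h4 : ({a, b} : Finset α).card ≤ Fintype.card α := Finset.card_le_univ _
    rwa [Finset.card_pair hab] at h4
  rw [h1, Finset.card_Icc_finset h2, Finset.card_erase_of_mem (Finset.mem_univ b),
    Finset.card_univ, Finset.card_singleton]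
  obtain ⟨k, hk⟩ := Nat.exists_eq_add_of_le h3
  rw [hk, show 2 + k - 1 - 1 = k from by omega, pow_add]
  norm_num

lemma lg {A B C D : Prop} (hD : ¬ D) (h : (¬ (A ↔ C)) ↔ (¬ (B ↔ D))) : C ↔ ¬ (A ↔ B) := by
  by_cases hA : A <;> by_cases hB : B <;> by_cases hC : C <;> simp_all

/-- averaging -/
lemma exists_W {α J : Type} [Fintype α] [Fintype J] (f g : J → α) (hfg : ∀ j, f j ≠ g j) :
    ∃ W : Finset α, Fintype.card J ≤
      4 * ((Finset.univ : Finset J).filter (fun j => f j ∈ W ∧ g j ∉ W)).card := by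
  by_contra hcon
  push Not at hcon
  have h1 : ∑ W : Finset α,
      4 * ((Finset.univ : Finset J).filter (fun j => f j ∈ W ∧ g j ∉ W)).card <
      ∑ _W : Finset α, Fintype.card J :=
    Finset.sum_lt_sum_of_nonempty Finset.univ_nonempty fun W _ => hcon W
  rw [Finset.sum_const, Finset.card_univ, Fintype.card_finset, smul_eq_mul, ← Finset.mul_sum] at h1
  simp only [Finset.card_filter] at h1
  rw [Finset.sum_comm] at h1
  simp only [← Finset.card_filter] at h1
  rw [Finset.mul_sum] at h1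
  have h2 : ∑ j : J, 4 * ((Finset.univ : Finset (Finset α)).filter
      (fun W => f j ∈ W ∧ g j ∉ W)).card = ∑ _j : J, 2 ^ Fintype.card α :=
    Finset.sum_congr rfl fun j _ => quarter (hfg j)
  rw [h2, Finset.sum_const, Finset.card_univ, smul_eq_mul, mul_comm] at h1
  exact lt_irrefl _ h1

theorem main : S_FLIP → S_EQ := by
  intro H n σ J _ p q hp hq hpp hpq
  obtain ⟨W, hW⟩ := exists_W (fun j => cls σ (p j)) (fun j => cls σ (q j))
    (fun j => cls_ne (hpq j))
  obtain ⟨JW, hJW⟩ : ∃ JW : Finset J, JW = (Finset.univ : Finset J).filter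
    (fun j => cls σ (p j) ∈ W ∧ cls σ (q j) ∉ W) := ⟨_, rfl⟩
  have hJ : ∀ j, j ∈ JW ↔ cls σ (p j) ∈ W ∧ cls σ (q j) ∉ W := by
    intro j
    rw [hJW, Finset.mem_filter]
    exact ⟨fun h => h.2, fun h => ⟨Finset.mem_univ j, h⟩⟩
  have h1 := H n σ {j // j ∈ JW} (fun j => p j) (fun j => hp j)
    (fun i j hij => hpp i j fun h => hij (Subtype.ext h))
    ((Fx σ).filter (fun β => ∀ j, β.Adj (p j).1 (p j).2 ↔ β.Adj (q j).1 (q j).2)) 1
    (Finset.filter_subset _ _) (by
      intro β hβ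
      have key : ∀ s : Finset {j // j ∈ JW}, (∃ δ ∈ (Fx σ).filter
          (fun β => ∀ j, β.Adj (p j).1 (p j).2 ↔ β.Adj (q j).1 (q j).2),
          ∀ u v, δ.Adj u v ↔ ¬ (β.Adj u v ↔ ∃ j ∈ s, SO σ (p j) (u, v))) →
          ∀ j, j ∈ s ↔ ¬ (β.Adj (p j).1 (p j).2 ↔ β.Adj (q j).1 (q j).2) := by
        rintro s ⟨δ, hδ, hd⟩ j
        have h2 := (Finset.mem_filter.mp hδ).2 j
        have h3 : (∃ i ∈ s, SO σ (p i) ((p j).1, (p j).2)) ↔ j ∈ s := by
          constructor
          · rintro ⟨i, hi, h4⟩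
            by_cases hij : i = j
            · rw [← hij]; exact hi
            · exact absurd h4 (hpp i j fun h => hij (Subtype.ext h))
          · intro hj
            exact ⟨j, hj, SO_refl σ _⟩
        have h4 : ¬ ∃ i ∈ s, SO σ (p i) ((q j).1, (q j).2) := by
          rintro ⟨i, hi, h5⟩
          have h6 : cls σ (p i) = cls σ (q j) := cls_eq h5
          have h7 := ((hJ i).mp i.2).1
          have h8 := ((hJ j).mp j.2).2
          rw [h6] at h7
          exact h8 h7
        rw [hd, hd, h3] at h2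
        exact lg h4 h2
      refine Finset.card_le_one.mpr ?_
      intro s hs s' hs'
      ext j
      rw [key s (Finset.mem_filter.mp hs).2 j, key s' (Finset.mem_filter.mp hs').2 j])
  rw [mul_one] at h1
  refine le_trans (Nat.mul_le_mul_left _ ?_) h1
  refine Nat.pow_le_pow_right (by norm_num) ?_
  have hW' : Fintype.card J ≤ 4 * JW.card := by
    rw [hJW]
    convert hW
  rw [Fintype.card_coe]
  omega

end Pool.Agent.W249.BP.EQ

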